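import Pool.Agent.Helper57.NX.Defs

/-! NX-5: the Gowers–Cauchy–Schwarz inequality. -/

set_option autoImplicit false

open Finset
open scoped BigOperators ComplexConjugate

namespace Pool.Agent.Helper57.NX

section Gcs

variable {α : Type}

theorem gcs_expect_succ {M : Type} [AddCommMonoid M] [Module ℚ≥0 M] {k : ℕ}
    (As : Fin (k + 1) → Finset α) (f : (Fin (k + 1) → α) → M) :
    𝔼 a ∈ Fintype.piFinset As, f a =
      𝔼 x ∈ As 0, 𝔼 a ∈ Fintype.piFinset (fun i : Fin k => As i.succ), f (Fin.cons x a) := by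
  rw [← Finset.expect_product']
  refine Finset.expect_nbij' (fun a => (a 0, Fin.tail a)) (fun p => Fin.cons p.1 p.2) ?_ ?_ ?_ ?_ ?_
  · intro a ha
    rw [Fintype.mem_piFinset] at ha
    rw [Finset.mem_product, Fintype.mem_piFinset]
    exact ⟨ha 0, fun i => ha i.succ⟩
  · rintro ⟨x, a⟩ h
    rw [Finset.mem_product, Fintype.mem_piFinset] at h
    rw [Fintype.mem_piFinset]
    intro i
    refine Fin.cases ?_ (fun i => ?_) i
    · simpa using h.1
    · simpa using h.2 i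
  · intro a _
    exact Fin.cons_self_tail a
  · rintro ⟨x, a⟩ _
    simp
  · intro a _
    simp

theorem gcs_prod_succ {k : ℕ} (g : (Fin (k + 1) → Bool) → ℂ) :
    ∏ ω : Fin (k + 1) → Bool, g ω =
      ∏ ω : Fin k → Bool, g (Fin.cons false ω) * g (Fin.cons true ω) := by
  rw [← (Fin.consEquiv (fun _ : Fin (k + 1) => Bool)).prod_comp, Fintype.prod_prod_type,
    Fintype.prod_bool, ← Finset.prod_mul_distrib]
  refine Finset.prod_congr rfl fun ω _ => ?_
  rw [mul_comm]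
  rfl

theorem gcs_card {k : ℕ} (b : Bool) (ω : Fin k → Bool) :
    #(univ.filter fun i : Fin (k + 1) => (Fin.cons b ω : Fin (k + 1) → Bool) i = true) =
      (if b = true then 1 else 0) + #(univ.filter fun i => ω i = true) := by
  rw [Finset.card_filter, Finset.card_filter, Fin.sum_univ_succ]
  simp

theorem cjj_cons_false {k : ℕ} (ω : Fin k → Bool) (z : ℂ) :
    cjj (Fin.cons false ω : Fin (k + 1) → Bool) z = cjj ω z := by
  unfold cjj
  rw [gcs_card]
  simp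

theorem cjj_cons_true {k : ℕ} (ω : Fin k → Bool) (z : ℂ) :
    cjj (Fin.cons true ω : Fin (k + 1) → Bool) z = conj (cjj ω z) := by
  unfold cjj
  rw [gcs_card]
  by_cases h : Even (#(univ.filter fun i => ω i = true))
  · have h' : ¬ Even ((if true = true then 1 else 0) + #(univ.filter fun i => ω i = true)) := by
      simp only [if_true]
      rw [add_comm, Nat.even_add_one]
      exact not_not.2 h
    rw [if_neg h', if_pos h]
  · have h' : Even ((if true = true then 1 else 0) + #(univ.filter fun i => ω i = true)) := by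
      simp only [if_true]
      rw [add_comm, Nat.even_add_one]
      exact h
    rw [if_pos h', if_neg h, Complex.conj_conj]

theorem cjj_mul {k : ℕ} (ω : Fin k → Bool) (z w : ℂ) : cjj ω (z * w) = cjj ω z * cjj ω w := by
  unfold cjj
  split_ifs
  · rfl
  · rw [map_mul]

theorem cjj_conj {k : ℕ} (ω : Fin k → Bool) (z : ℂ) : cjj ω (conj z) = conj (cjj ω z) := by
  unfold cjj
  split_ifs
  · rfl
  · rfl

theorem sel_cons {k : ℕ} (c : Bool) (ω : Fin k → Bool) (x y : α) (a b : Fin k → α) :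
    sel (Fin.cons c ω : Fin (k + 1) → Bool) (Fin.cons x a : Fin (k + 1) → α) (Fin.cons y b) =
      Fin.cons (if c then y else x) (sel ω a b) := by
  funext i
  refine Fin.cases ?_ (fun i => ?_) i
  · simp [sel]
  · simp [sel]

/-- the right-hand side -/
noncomputable def gcsR {k : ℕ} (As : Fin k → Finset α) (F : (Fin k → α) → ℂ) : ℂ :=
  𝔼 a ∈ Fintype.piFinset As, 𝔼 b ∈ Fintype.piFinset As,
        ∏ ω : Fin k → Bool, cjj ω (F (sel ω a b))

theorem gcsR_succ {k : ℕ} (As : Fin (k + 1) → Finset α) (F : (Fin (k + 1) → α) → ℂ) :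
    gcsR As F = 𝔼 x ∈ As 0, 𝔼 y ∈ As 0, gcsR (fun i : Fin k => As i.succ)
      (fun a => F (Fin.cons x a) * conj (F (Fin.cons y a))) := by
  unfold gcsR
  rw [gcs_expect_succ]
  refine Finset.expect_congr rfl fun x _ => ?_
  rw [Finset.expect_comm]
  rw [gcs_expect_succ]
  refine Finset.expect_congr rfl fun y _ => ?_
  rw [Finset.expect_comm]
  refine Finset.expect_congr rfl fun a _ => ?_
  refine Finset.expect_congr rfl fun b _ => ?_
  rw [gcs_prod_succ]
  refine Finset.prod_congr rfl fun ω _ => ?_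
  rw [sel_cons, sel_cons, cjj_cons_false, cjj_cons_true, cjj_mul, cjj_conj]
  simp

theorem gcs_sq_expect_le {ι : Type} (s : Finset ι) (g : ι → ℝ) :
    (𝔼 i ∈ s, g i) ^ 2 ≤ 𝔼 i ∈ s, g i ^ 2 := by
  have h := Finset.expect_mul_sq_le_sq_mul_sq s (fun _ => (1 : ℝ)) g
  simp only [one_mul, one_pow] at h
  refine h.trans ?_
  rcases s.eq_empty_or_nonempty with rfl | hs
  · simp
  · rw [Finset.expect_const hs, one_mul]

theorem gcs_expect_nonneg {ι : Type} (s : Finset ι) (g : ι → ℝ) (hg : ∀ i ∈ s, 0 ≤ g i) :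
    0 ≤ 𝔼 i ∈ s, g i := Finset.expect_nonneg hg

theorem gcs_pow_expect_le {ι : Type} (s : Finset ι) (k : ℕ) (g : ι → ℝ) (hg : ∀ i ∈ s, 0 ≤ g i) :
    (𝔼 i ∈ s, g i) ^ (2 ^ k) ≤ 𝔼 i ∈ s, g i ^ (2 ^ k) := by
  induction k with
  | zero => simp
  | succ k ih =>
    have e : ∀ x : ℝ, x ^ (2 ^ (k + 1)) = (x ^ (2 ^ k)) ^ 2 := fun x => by
      rw [← pow_mul, pow_succ]
    rw [e]
    simp_rw [e]
    have h0 : 0 ≤ (𝔼 i ∈ s, g i) ^ (2 ^ k) := pow_nonneg (gcs_expect_nonneg s g hg) _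
    exact (pow_le_pow_left₀ h0 ih 2).trans (gcs_sq_expect_le s fun i => g i ^ (2 ^ k))

/-- the doubled functions -/
def gcsF {k : ℕ} (F : (Fin (k + 1) → α) → ℂ) (x y : α) (a : Fin k → α) : ℂ :=
  F (Fin.cons x a) * conj (F (Fin.cons y a))

theorem gcs_re_expect {ι : Type} (s : Finset ι) (g : ι → ℂ) :
    (𝔼 i ∈ s, g i).re = 𝔼 i ∈ s, (g i).re := by
  exact map_expect (Complex.reLm.restrictScalars ℚ≥0 : ℂ →ₗ[ℚ≥0] ℝ) g s

theorem gcs_conj_expect {ι : Type} (s : Finset ι) (g : ι → ℂ) :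
    conj (𝔼 i ∈ s, g i) = 𝔼 i ∈ s, conj (g i) := by
  refine Complex.ext ?_ ?_
  · rw [Complex.conj_re, gcs_re_expect, gcs_re_expect]
    rfl
  · have him : ∀ f : ι → ℂ, (𝔼 i ∈ s, f i).im = 𝔼 i ∈ s, (f i).im := fun f =>
      map_expect (Complex.imLm.restrictScalars ℚ≥0 : ℂ →ₗ[ℚ≥0] ℝ) f s
    rw [Complex.conj_im, him, him, ← Finset.expect_neg_distrib]
    rfl

/-- the first step: eliminating `B 0` -/
theorem gcs_step {k : ℕ} (As : Fin (k + 1) → Finset α)
    (hA : (As 0).Nonempty) (F : (Fin (k + 1) → α) → ℂ)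
    (B : Fin (k + 1) → (Fin (k + 1) → α) → ℂ) (hB1 : ∀ j a, ‖B j a‖ ≤ 1)
    (hB : ∀ a a', (∀ i, i ≠ 0 → a i = a' i) → B 0 a = B 0 a') :
    ‖𝔼 a ∈ Fintype.piFinset As, F a * ∏ j, B j a‖ ^ 2 ≤
      (𝔼 x ∈ As 0, 𝔼 y ∈ As 0, 𝔼 a ∈ Fintype.piFinset (fun i : Fin k => As i.succ),
        gcsF F x y a * ∏ j, gcsF (B (Fin.succ j)) x y a).re := by
  obtain ⟨x0, hx0⟩ := hA
  set P := Fintype.piFinset (fun i : Fin k => As i.succ) with hP
  set W : (Fin k → α) → ℂ := fun a =>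
    𝔼 x ∈ As 0, F (Fin.cons x a) * ∏ j : Fin k, B j.succ (Fin.cons x a) with hW
  have e1 : 𝔼 a ∈ Fintype.piFinset As, F a * ∏ j, B j a =
      𝔼 a ∈ P, B 0 (Fin.cons x0 a) * W a := by
    rw [gcs_expect_succ, Finset.expect_comm]
    refine Finset.expect_congr rfl fun a _ => ?_
    rw [hW, Finset.mul_expect]
    refine Finset.expect_congr rfl fun x _ => ?_
    rw [Fin.prod_univ_succ, hB (Fin.cons x a) (Fin.cons x0 a)]
    · ring
    · intro i hi
      obtain ⟨j, rfl⟩ := Fin.exists_succ_eq.2 hi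
      simp
  have e2 : ‖𝔼 a ∈ P, B 0 (Fin.cons x0 a) * W a‖ ≤ 𝔼 a ∈ P, ‖W a‖ := by
    refine (RCLike.norm_expect_le (K := ℂ)).trans (Finset.expect_le_expect fun a _ => ?_)
    rw [norm_mul]
    exact mul_le_of_le_one_left (norm_nonneg _) (hB1 0 _)
  have e3 : ‖𝔼 a ∈ Fintype.piFinset As, F a * ∏ j, B j a‖ ^ 2 ≤ 𝔼 a ∈ P, ‖W a‖ ^ 2 := by
    rw [e1]
    exact (pow_le_pow_left₀ (norm_nonneg _) e2 2).trans (gcs_sq_expect_le P _)
  refine e3.trans (le_of_eq ?_)
  have e4 : ∀ a, ‖W a‖ ^ 2 = (W a * conj (W a)).re := fun a => by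
    rw [Complex.mul_conj, Complex.normSq_eq_norm_sq]
    exact (Complex.ofReal_re _).symm
  simp_rw [e4]
  rw [← gcs_re_expect]
  congr 1
  have e5 : ∀ a, W a * conj (W a) = 𝔼 x ∈ As 0, 𝔼 y ∈ As 0,
      (gcsF F x y a * ∏ j, gcsF (B (Fin.succ j)) x y a) := by
    intro a
    rw [gcs_conj_expect, Finset.expect_mul_expect]
    refine Finset.expect_congr rfl fun x _ => Finset.expect_congr rfl fun y _ => ?_
    unfold gcsF
    rw [map_mul, map_prod, Finset.prod_mul_distrib]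
    ring
  simp_rw [e5]
  rw [Finset.expect_comm]
  refine Finset.expect_congr rfl fun x _ => ?_
  rw [Finset.expect_comm]

theorem gcs_aux : ∀ (k : ℕ) (As : Fin (k + 1) → Finset α)
    (_ : ∀ i, (As i).Nonempty) (F : (Fin (k + 1) → α) → ℂ)
    (B : Fin (k + 1) → (Fin (k + 1) → α) → ℂ) (_ : ∀ j a, ‖B j a‖ ≤ 1)
    (_ : ∀ j a a', (∀ i, i ≠ j → a i = a' i) → B j a = B j a'),
    ‖𝔼 a ∈ Fintype.piFinset As, F a * ∏ j, B j a‖ ^ (2 ^ (k + 1)) ≤ (gcsR As F).re := by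
  intro k
  induction k with
  | zero =>
    intro As hA F B hB1 hB
    have h := gcs_step As (hA 0) F B hB1 (hB 0)
    refine (le_of_eq (by norm_num)).trans (h.trans (le_of_eq ?_))
    rw [gcsR_succ]
    congr 1
    refine Finset.expect_congr rfl fun x _ => Finset.expect_congr rfl fun y _ => ?_
    unfold gcsR gcsF
    have hu : (Fintype.piFinset fun i : Fin 0 => As i.succ) = {default} := by
      ext a
      simp [Subsingleton.elim a default]
    rw [hu]
    simp [cjj, Subsingleton.elim (sel _ _ _) (default : Fin 0 → α)]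
  | succ k ih =>
    intro As hA F B hB1 hB
    have h := gcs_step As (hA 0) F B hB1 (hB 0)
    have h1 : ‖𝔼 a ∈ Fintype.piFinset As, F a * ∏ j, B j a‖ ^ 2 ≤
        𝔼 x ∈ As 0, 𝔼 y ∈ As 0, ‖𝔼 a ∈ Fintype.piFinset (fun i : Fin (k + 1) => As i.succ),
          gcsF F x y a * ∏ j, gcsF (B (Fin.succ j)) x y a‖ := by
      refine h.trans ((Complex.re_le_norm _).trans ?_)
      refine (RCLike.norm_expect_le (K := ℂ)).trans (Finset.expect_le_expect fun x _ => ?_)
      exact RCLike.norm_expect_le (K := ℂ)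
    have e : ∀ x : ℝ, x ^ (2 ^ (k + 1 + 1)) = (x ^ 2) ^ (2 ^ (k + 1)) := fun x => by
      rw [← pow_mul, pow_succ' 2 (k + 1)]
    rw [e]
    refine (pow_le_pow_left₀ (sq_nonneg _) h1 _).trans ?_
    refine (gcs_pow_expect_le _ _ _ fun x _ => Finset.expect_nonneg fun y _ =>
      norm_nonneg _).trans ?_
    rw [gcsR_succ, gcs_re_expect]
    refine Finset.expect_le_expect fun x _ => ?_
    refine (gcs_pow_expect_le _ _ _ fun y _ => norm_nonneg _).trans ?_
    rw [gcs_re_expect]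
    refine Finset.expect_le_expect fun y _ => ?_
    refine ih (fun i => As i.succ) (fun i => hA _) (gcsF F x y)
      (fun j => gcsF (B (Fin.succ j)) x y) ?_ ?_
    · intro j a
      unfold gcsF
      rw [norm_mul, Complex.norm_conj]
      exact mul_le_one₀ (hB1 _ _) (norm_nonneg _) (hB1 _ _)
    · intro j a a' haa
      have key : ∀ z, B j.succ (Fin.cons z a) = B j.succ (Fin.cons z a') := by
        intro z
        refine hB j.succ _ _ ?_
        intro i hi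
        refine Fin.cases ?_ (fun i hi => ?_) i hi
        · intro _
          simp
        · simpa using haa i fun h => hi (congrArg Fin.succ h)
      unfold gcsF
      rw [key, key]

end Gcs

theorem gcs {k : ℕ} (hk : 1 ≤ k) {α : Type} [DecidableEq α] (As : Fin k → Finset α)
    (hA : ∀ i, (As i).Nonempty) (F : (Fin k → α) → ℂ)
    (B : Fin k → (Fin k → α) → ℂ) (hB1 : ∀ j a, ‖B j a‖ ≤ 1)
    (hB : ∀ j a a', (∀ i, i ≠ j → a i = a' i) → B j a = B j a') :
    ‖𝔼 a ∈ Fintype.piFinset As, F a * ∏ j, B j a‖ ^ (2 ^ k) ≤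
      (𝔼 a ∈ Fintype.piFinset As, 𝔼 b ∈ Fintype.piFinset As,
        ∏ ω : Fin k → Bool, cjj ω (F (sel ω a b))).re := by
  obtain ⟨k, rfl⟩ : ∃ k', k = k' + 1 := ⟨k - 1, by omega⟩
  exact gcs_aux k As hA F B hB1 hB

/-- the right-hand side is a nonnegative real number -/
theorem gcs_pos {k : ℕ} (hk : 1 ≤ k) {α : Type} [DecidableEq α] (As : Fin k → Finset α)
    (F : (Fin k → α) → ℂ) : ∃ r : ℝ, 0 ≤ r ∧
      𝔼 a ∈ Fintype.piFinset As, 𝔼 b ∈ Fintype.piFinset As,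
        ∏ ω : Fin k → Bool, cjj ω (F (sel ω a b)) = r := by
  obtain ⟨k, rfl⟩ : ∃ k', k = k' + 1 := ⟨k - 1, by omega⟩
  set P := Fintype.piFinset (fun i : Fin k => As i.succ) with hP
  set U : (Fin k → α) → (Fin k → α) → ℂ := fun a b =>
    𝔼 x ∈ As 0, ∏ ω : Fin k → Bool, cjj ω (F (Fin.cons x (sel ω a b))) with hU
  refine ⟨𝔼 a ∈ P, 𝔼 b ∈ P, ‖U a b‖ ^ 2, Finset.expect_nonneg fun a _ =>
    Finset.expect_nonneg fun b _ => sq_nonneg _, ?_⟩
  show gcsR As F = _
  rw [gcsR_succ]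
  have e1 : ∀ x y, gcsR (fun i : Fin k => As i.succ)
      (fun a => F (Fin.cons x a) * conj (F (Fin.cons y a))) =
      𝔼 a ∈ P, 𝔼 b ∈ P, (∏ ω : Fin k → Bool, cjj ω (F (Fin.cons x (sel ω a b)))) *
        conj (∏ ω : Fin k → Bool, cjj ω (F (Fin.cons y (sel ω a b)))) := by
    intro x y
    unfold gcsR
    refine Finset.expect_congr rfl fun a _ => Finset.expect_congr rfl fun b _ => ?_
    rw [map_prod, ← Finset.prod_mul_distrib]
    refine Finset.prod_congr rfl fun ω _ => ?_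
    rw [cjj_mul, cjj_conj]
  simp_rw [e1]
  have e2 : (((𝔼 a ∈ P, 𝔼 b ∈ P, ‖U a b‖ ^ 2 : ℝ)) : ℂ) =
      𝔼 a ∈ P, 𝔼 b ∈ P, U a b * conj (U a b) := by
    rw [show ∀ r : ℝ, ((r : ℝ) : ℂ) = algebraMap ℝ ℂ r from fun _ => rfl, map_expect]
    refine Finset.expect_congr rfl fun a _ => ?_
    rw [map_expect]
    refine Finset.expect_congr rfl fun b _ => ?_
    rw [Complex.mul_conj, Complex.normSq_eq_norm_sq]
    rfl
  rw [e2]
  have e3 : ∀ a b, U a b * conj (U a b) = 𝔼 x ∈ As 0, 𝔼 y ∈ As 0,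
      ((∏ ω : Fin k → Bool, cjj ω (F (Fin.cons x (sel ω a b)))) *
        conj (∏ ω : Fin k → Bool, cjj ω (F (Fin.cons y (sel ω a b))))) := by
    intro a b
    rw [hU, gcs_conj_expect, Finset.expect_mul_expect]
  simp_rw [e3]
  -- reorder
  have e4 : ∀ g : α → α → (Fin k → α) → (Fin k → α) → ℂ,
      𝔼 x ∈ As 0, 𝔼 y ∈ As 0, 𝔼 a ∈ P, 𝔼 b ∈ P, g x y a b =
      𝔼 a ∈ P, 𝔼 b ∈ P, 𝔼 x ∈ As 0, 𝔼 y ∈ As 0, g x y a b := by
    intro g
    have h1 : ∀ x, 𝔼 y ∈ As 0, 𝔼 a ∈ P, 𝔼 b ∈ P, g x y a b =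
        𝔼 a ∈ P, 𝔼 b ∈ P, 𝔼 y ∈ As 0, g x y a b := by
      intro x
      rw [Finset.expect_comm]
      exact Finset.expect_congr rfl fun a _ => Finset.expect_comm _ _ _
    simp_rw [h1]
    rw [Finset.expect_comm]
    exact Finset.expect_congr rfl fun a _ => Finset.expect_comm _ _ _
  exact e4 _

end Pool.Agent.Helper57.NX
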